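import Pool.Agent.helper10.X4.NB
import Pool.Agent.helper14.X4.M2
import Pool.Agent.helper16.X4.M1
import Pool.Agent.helper19.X4.M1K
import Pool.Agent.helper20.X4.D2
import Pool.Agent.helper21.X4.BX
import Pool.Agent.helper27.X4.ND
import Pool.Agent.helper31.X4.OP
import Pool.Agent.helper37.X4.L3
import Pool.Agent.helper4.X4.GE
import Pool.Agent.helper40.X4.HG
import Pool.Agent.helper42.X4.PH
import Pool.Agent.helper43.X4.DL
import Pool.Agent.helper46.X4.HP
import Pool.Agent.helper49.X4.GB
import Pool.Agent.helper64.X4.DB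
import Pool.Agent.helper70.X4.GF
import Pool.Agent.helper74.X4.EX
import Pool.Agent.helper75.X4.D4
import Pool.Agent.helper76.X4.L1
import Pool.Agent.helper82.X4.BC
import Pool.Agent.helper88.X4.DC
import Pool.Agent.helper9.X4.L2
import Pool.Agent.helper92.X4.LG
import Pool.Agent.helper94.X4.CI
import Pool.Agent.helper94.X4.PR
import Pool.Agent.helper98.X4.M3
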