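import Pool.Agent.helper87.X4.Spec

set_option autoImplicit false

namespace Pool.Agent.X4

open Matrix Pool.Agent.PL

theorem eTP : TP_stmt := by
  intro N m R _ u w
  constructor
  · ext I J
    rw [Matrix.mul_apply]
    unfold tp
    simp only [Matrix.mul_apply]
    rw [Finset.prod_univ_sum, Fintype.piFinset_univ]
    refine Finset.sum_congr rfl fun K _ => ?_
    rw [Finset.prod_mul_distrib]
  · ext I J
    unfold tp
    simp only [Matrix.one_apply]
    rw [Finset.prod_boole]
    congr 1
    simp only [Finset.mem_univ, true_imp_iff]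
    exact propext funext_iff.symm

/-- The coefficients of the linear equations `der Y m t I = 0` in `t`. -/
private def BT_L {N m : ℕ} (Y : Matrix (Fin N) (Fin N) ℚ) (I J : Fin m → Fin N) : ℚ :=
  ∑ k : Fin m, ∑ j : Fin N, if Function.update I k j = J then Y (I k) j else 0

private theorem BT_key (K : Type) [Field K] [CharZero K] {N m : ℕ}
    (Y : Matrix (Fin N) (Fin N) ℚ) (I : Fin m → Fin N) (t : Tn N m K) :
    ∑ J : Fin m → Fin N, (BT_L Y I J : K) * t J = der (cst K Y) m t I := by
  unfold der BT_L cst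
  have h1 : ∀ J : Fin m → Fin N,
      ((∑ k : Fin m, ∑ j : Fin N, if Function.update I k j = J then Y (I k) j else 0 : ℚ) : K) * t J
      = ∑ k : Fin m, ∑ j : Fin N, if Function.update I k j = J then (Y (I k) j : K) * t J else 0 := by
    intro J
    rw [Rat.cast_sum, Finset.sum_mul]
    refine Finset.sum_congr rfl fun k _ => ?_
    rw [Rat.cast_sum, Finset.sum_mul]
    refine Finset.sum_congr rfl fun j _ => ?_
    split_ifs with h
    · rfl
    · simp
  simp only [h1]
  rw [Finset.sum_comm]
  refine Finset.sum_congr rfl fun k _ => ?_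
  rw [Finset.sum_comm]
  refine Finset.sum_congr rfl fun j _ => ?_
  rw [Finset.sum_ite_eq]
  simp

theorem eBT (hBC : BC_stmt) : BT_stmt := by
  intro K _ _ N m A t hA
  have h := hBC K (A × (Fin m → Fin N)) (Fin m → Fin N)
    (fun i J => BT_L (i.1 : Matrix (Fin N) (Fin N) ℚ) i.2 J) t (by
      rintro ⟨⟨Y, hY⟩, I⟩
      have := BT_key K Y I t
      rw [hA Y hY] at this
      exact this)
  refine Submodule.span_mono ?_ h
  rintro _ ⟨y, hy, rfl⟩
  refine ⟨y, ?_, rfl⟩
  intro Y hY
  funext I
  have e2 := BT_key ℚ Y I y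
  have e3 := hy ⟨⟨Y, hY⟩, I⟩
  have e5 : cst ℚ Y = Y := by ext i j; simp [cst]
  rw [e5] at e2
  rw [← e2]
  simp only [Rat.cast_id]
  exact e3

end Pool.Agent.X4
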