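import Pool.Agent.helper87.X4.Spec
import Pool.Agent.helper87.X4.ETP

set_option autoImplicit false

namespace Pool.Agent.X4

open Matrix Pool.Agent.PL

/-- The square of a vector. -/
private def vv {N : ℕ} {R : Type} [CommRing R] (c : Fin N → R) : Tn N 2 R :=
  fun I => c (I 0) * c (I 1)

private theorem tp_vv {N : ℕ} {R : Type} [CommRing R] (u : Matrix (Fin N) (Fin N) R)
    (c : Fin N → R) : tp u 2 *ᵥ vv c = vv (u *ᵥ c) := by
  funext I
  simp only [Matrix.mulVec, dotProduct, tp, vv, Fin.prod_univ_two]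
  rw [Finset.sum_mul_sum, ← Fintype.sum_prod_type']
  refine Fintype.sum_equiv (finTwoArrowEquiv (Fin N)) _ _ (fun J => ?_)
  show u (I 0) (J 0) * u (I 1) (J 1) * (c (J 0) * c (J 1)) =
    u (I 0) (J 0) * c (J 0) * (u (I 1) (J 1) * c (J 1))
  ring

private theorem sumApp {R : Type} [AddCommMonoid R] (N p q : ℕ) (f : (Fin (p + q) → Fin N) → R) :
    ∑ K, f K = ∑ I : Fin p → Fin N, ∑ J : Fin q → Fin N, f (Fin.append I J) := by
  rw [← Fintype.sum_prod_type']
  exact (Fintype.sum_equiv (Fin.appendEquiv p q) (fun x => f (Fin.append x.1 x.2)) f (fun x => rfl)).symm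

private theorem tp_tmul {R : Type} [CommRing R] (N : ℕ) (u : Matrix (Fin N) (Fin N) R) (m n : ℕ)
    (s : Tn N m R) (t : Tn N n R) :
    tp u (m + n) *ᵥ tmul s t = tmul (tp u m *ᵥ s) (tp u n *ᵥ t) := by
  ext I
  have hI : I = Fin.append (fun i => I (Fin.castAdd n i)) (fun j => I (Fin.natAdd m j)) := by
    exact (Fin.append_castAdd_natAdd).symm
  simp only [Matrix.mulVec, dotProduct, tmul]
  rw [sumApp, Finset.sum_mul_sum]
  refine Finset.sum_congr rfl (fun J _ => Finset.sum_congr rfl (fun K _ => ?_))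
  simp only [Fin.append_left, Fin.append_right]
  have h1 : tp u (m + n) I (Fin.append J K) =
      tp u m (fun i => I (Fin.castAdd n i)) J * tp u n (fun j => I (Fin.natAdd m j)) K := by
    conv_lhs => rw [hI]
    simp only [tp, Fin.prod_univ_add, Fin.append_left, Fin.append_right]
  rw [h1]
  ring

theorem eDN : DN_stmt := by
  intro F _ _ N E D h4 t ht
  refine ⟨ht, fun e => ?_⟩
  have hT : ∀ (T : Tn N (2 + 2) ℚ), T = tmul t (vv (D.c D.base)) → T ∈ D.Hodge D.base (2 + 2) := by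
    intro T hTT z
    have h1 : (fun I => (T I : ℝ)) = tmul (up ℝ t) (vv (fun i => (D.c D.base i : ℝ))) := by
      funext I
      rw [hTT]
      simp [tmul, vv, up]
    rw [h1, tp_tmul, tp_vv, D.v_fix D.base z]
    have h2 := ht z
    have h3 : tp (D.h D.base z) 2 *ᵥ up ℝ t = up ℝ t := h2
    rw [h3]
  obtain ⟨-, hA⟩ := h4 _ (hT _ rfl)
  obtain ⟨s, hs, hcl⟩ := hA e
  have hue : (D.P e)⁻¹ * D.P e = 1 :=
    Matrix.nonsing_inv_mul _ ((Matrix.isUnit_iff_isUnit_det _).1 (D.isUnit e))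
  have hue' : D.P e * (D.P e)⁻¹ = 1 :=
    Matrix.mul_nonsing_inv _ ((Matrix.isUnit_iff_isUnit_det _).1 (D.isUnit e))
  have htp : ∀ (a b : Matrix (Fin N) (Fin N) F) (n : ℕ) (x : Tn N n F),
      tp a n *ᵥ (tp b n *ᵥ x) = tp (a * b) n *ᵥ x := by
    intro a b n x
    rw [(eTP N n F a b).1, Matrix.mulVec_mulVec]
  have htp1 : ∀ (n : ℕ) (x : Tn N n F), tp (1 : Matrix (Fin N) (Fin N) F) n *ᵥ x = x := by
    intro n x
    rw [(eTP N n F 1 1).2, Matrix.one_mulVec]
  set w : Tn N 2 F := tp (D.P e)⁻¹ 2 *ᵥ D.cls D.base 2 t with hw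
  have hPw : tp (D.P e) 2 *ᵥ w = D.cls D.base 2 t := by
    rw [hw, htp, hue', htp1]
  -- the class of the product
  have hcT : D.cls D.base (2 + 2) (tmul t (vv (D.c D.base))) =
      tmul (D.cls D.base 2 t) (vv D.v) := by
    unfold Datum.cls
    have h1 : (fun I => ((tmul t (vv (D.c D.base)) I : ℚ) : F)) =
        tmul (up F t) (vv (fun i => (D.c D.base i : F))) := by
      funext I
      simp [tmul, vv, up]
    rw [h1, tp_tmul, tp_vv, D.v_eq D.base]
    rfl
  have hup : up F (s : Tn N (2 + 2) ℚ) = tmul w (vv (fun i => (D.c e i : F))) := by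
    have h1 : tp (D.P e) (2 + 2) *ᵥ up F (s : Tn N (2 + 2) ℚ) =
        tp (D.P e) (2 + 2) *ᵥ tmul w (vv (fun i => (D.c e i : F))) := by
      rw [tp_tmul, tp_vv, D.v_eq e, hPw, ← hcT]
      exact hcl
    have h2 : tp (D.P e)⁻¹ (2 + 2) *ᵥ (tp (D.P e) (2 + 2) *ᵥ up F (s : Tn N (2 + 2) ℚ)) =
        tp (D.P e)⁻¹ (2 + 2) *ᵥ
          (tp (D.P e) (2 + 2) *ᵥ tmul w (vv (fun i => (D.c e i : F)))) := by rw [h1]
    rwa [htp, htp, hue, htp1, htp1] at h2
  -- a nonzero coordinate
  obtain ⟨i, hi⟩ : ∃ i, D.c e i ≠ 0 := by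
    by_contra hcon
    push Not at hcon
    apply D.v_ne
    rw [← D.v_eq e]
    have : (fun i => (D.c e i : F)) = 0 := by
      funext i
      simp [hcon i]
    rw [this, Matrix.mulVec_zero]
  have hiF : (D.c e i : F) ≠ 0 := by exact_mod_cast hi
  have hiR : (D.c e i : ℝ) ≠ 0 := by exact_mod_cast hi
  let s' : Tn N 2 ℚ := fun I => (s : Tn N (2 + 2) ℚ)
    (Fin.append I (fun _ : Fin 2 => i) : Fin (2 + 2) → Fin N) / (D.c e i * D.c e i)
  have hws : ∀ I, w I = (s' I : F) := by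
    intro I
    have h1 := congrFun hup (Fin.append I (fun _ : Fin 2 => i))
    simp only [tmul, up, vv, Fin.append_left, Fin.append_right] at h1
    simp only [s']
    push_cast
    rw [h1]
    field_simp
  have hss : (s : Tn N (2 + 2) ℚ) = tmul s' (vv (D.c e)) := by
    funext I
    have h1 := congrFun hup I
    have h2 : ((s I : ℚ) : F) = ((tmul s' (vv (D.c e)) I : ℚ) : F) := by
      have h3 : ((s I : ℚ) : F) = tmul w (vv (fun i => (D.c e i : F))) I := h1
      rw [h3]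
      simp only [tmul, vv]
      rw [hws]
      push_cast
      rfl
    exact_mod_cast h2
  refine ⟨s', ?_, ?_⟩
  · intro z
    have h1 : tp (D.h e z) (2 + 2) *ᵥ (fun I => (s I : ℝ)) = fun I => (s I : ℝ) := hs z
    have h2 : (fun I => (s I : ℝ)) = tmul (up ℝ s') (vv (fun i => (D.c e i : ℝ))) := by
      funext I
      rw [hss]
      simp [tmul, vv, up]
    have h3 : tmul (tp (D.h e z) 2 *ᵥ up ℝ s') (vv (fun i => (D.c e i : ℝ))) =
        tmul (up ℝ s') (vv (fun i => (D.c e i : ℝ))) := by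
      have h4 := tp_tmul N (D.h e z) 2 2 (up ℝ s') (vv (fun i => (D.c e i : ℝ)))
      rw [tp_vv, D.v_fix e z] at h4
      rw [← h4, ← h2]
      exact h1
    funext I
    have h5 := congrFun h3 (Fin.append I (fun _ : Fin 2 => i))
    simp only [tmul, vv, Fin.append_left, Fin.append_right] at h5
    have h6 : (D.c e i : ℝ) * (D.c e i : ℝ) ≠ 0 := mul_ne_zero hiR hiR
    exact mul_right_cancel₀ h6 h5
  · rw [← hPw]
    unfold Datum.cls
    congr 1
    funext I
    exact (hws I).symm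

end Pool.Agent.X4
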