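import Pool.Agent.helper87.X4.All
import Pool.Agent.helper13.X4.EC

set_option autoImplicit false

namespace Pool.Agent.X4

open Matrix Pool.Agent.PL

section

variable (hTP : TP_stmt) (hBT : BT_stmt) (hDN : DN_stmt)

theorem tGE (hTP : TP_stmt) : GE_stmt := GE OP (EX DC DL hTP) EC
theorem tBX : BX_stmt := BX BC
theorem tHG (hTP : TP_stmt) : HG_stmt := HG (tGE hTP) tBX DL DB
theorem tND (hTP : TP_stmt) : ND_stmt := ND PH D2 DC DB tBX DL hTP
theorem tPR (hTP : TP_stmt) : PR_stmt := PR (GB DL) (tND hTP)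
theorem tHP (hTP : TP_stmt) : HP_stmt := HP (GB DL) (tND hTP) PH D2 D4 (tHG hTP)
theorem tM1 (hTP : TP_stmt) : M1_stmt := M1 DL (GB DL) (tND hTP) PH D2 D4 (tHG hTP)
theorem tM1K (hTP : TP_stmt) : M1K_stmt := M1K (tM1 hTP) tBX DL DB
theorem tM2 (hTP : TP_stmt) (hBT : BT_stmt) : M2_stmt := M2 (tM1K hTP) (tHG hTP) hBT DC DL DB hTP
theorem tLG (hTP : TP_stmt) : LG_stmt := LG hTP L1 L2 L3 DL
theorem tM3 (hTP : TP_stmt) : M3_stmt := M3 (tM1K hTP) (tLG hTP) (GF CI hTP) NB DC DL DB hTP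

end

end Pool.Agent.X4
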