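import Pool.Agent.helper87.X4.Res
import Pool.Agent.helper87.X4.EDN
import Pool.Agent.helper87.AH.Core

/-!
# Project X4: the pairwise form and the zero-one law
-/

set_option autoImplicit false

namespace Pool.Agent.X4

open Matrix Pool.Agent.PL MeasureTheory Topology

/-- The datum with other embeddings. -/
def sub {F : Type} [Field F] [CharZero F] {N : ℕ} {E A : Type} (D : Datum F N E) (g : A → E) :
    Datum F N (Option A) where
  P o := D.P (o.elim D.base g)
  isUnit o := D.isUnit (o.elim D.base g)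
  Ψ := D.Ψ
  Q o := D.Q (o.elim D.base g)
  form o := D.form (o.elim D.base g)
  h o := D.h (o.elim D.base g)
  inv o := D.inv (o.elim D.base g)
  v := D.v
  c o := D.c (o.elim D.base g)
  v_ne := D.v_ne
  v_eq o := D.v_eq (o.elim D.base g)
  v_fix o := D.v_fix (o.elim D.base g)
  base := none
  pos := D.pos

section

variable {F : Type} [Field F] [CharZero F] {N : ℕ} {E A : Type}

theorem sub_AH (D : Datum F N E) (g : A → E) (m : ℕ) (t : Tn N m ℚ)
    (ht : t ∈ D.Hodge D.base m) (h : ∀ a, Bec D (g a) m t) : t ∈ (sub D g).AH m := by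
  refine ⟨ht, fun o => ?_⟩
  cases o with
  | none => exact ⟨t, ht, rfl⟩
  | some a => exact h a

theorem span_of_good (D : Datum F N E) (hc : ∀ e, Continuous (D.h e)) (p : Tn N 4 ℚ)
    (hp : IsKey D p) (e : E) (hg : GoodAt D p e) (m : ℕ) (t : Tn N m ℚ) (ht : t ∈ HZ D m) :
    D.cls D.base m t ∈ Submodule.span F (D.cls e m '' (D.Hodge e m : Set (Tn N m ℚ))) := by
  obtain ⟨π, hπ, rfl⟩ := hp
  have hp4 := tHP eTP F N E D hc π hπ
  exact tM2 eTP (eBT BC) F N (Option Unit) (sub D fun _ => e) (fun o => hc _) π hπ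
    (fun t ht => sub_AH D _ 2 t ht fun _ => hg.1 t ht)
    (sub_AH D _ 4 _ hp4 fun _ => hg.2) m t ht (some ())

theorem good_of_four (D : Datum F N E) (p : Tn N 4 ℚ) (hp : p ∈ D.Hodge D.base 4) (e : E)
    (h : ∀ t ∈ D.Hodge D.base 4, Bec D e 4 t) : GoodAt D p e := by
  refine ⟨fun t ht => ?_, h p hp⟩
  have h1 := eDN F N (Option Unit) (sub D fun _ => e)
    (fun t ht => sub_AH D _ 4 t ht fun _ => h t ht) t ht
  exact h1.2 (some ())

end

section Galois

variable {F : Type} [NormedField F] [IsUltrametricDist F] [CharZero F] {N : ℕ} {E : Type}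
variable {Γ : Type} [Group Γ] [TopologicalSpace Γ] [IsTopologicalGroup Γ]

/-- The action on tensors. -/
def ac (D : Datum F N E) (ga : Gal D Γ) (m : ℕ) : Γ → Tn N m F → Tn N m F :=
  fun σ x => tp (ga.R σ) m *ᵥ x

theorem ac_act (D : Datum F N E) (ga : Gal D Γ) (m : ℕ) :
    Pool.Agent.helper87.AH.IsAct (ac D ga m) := by
  refine ⟨fun x => ?_, fun σ τ x => ?_⟩
  · unfold ac
    rw [map_one, (eTP N m F 1 1).2, Matrix.one_mulVec]
  · unfold ac
    rw [map_mul, (eTP N m F _ _).1, Matrix.mulVec_mulVec]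

theorem ac_cont (D : Datum F N E) (ga : Gal D Γ) (m : ℕ) (x : Tn N m F) :
    Continuous fun σ => ac D ga m σ x := by
  unfold ac
  refine continuous_pi fun I => ?_
  simp only [Matrix.mulVec, dotProduct, tp]
  refine continuous_finsetSum _ fun J _ => Continuous.mul ?_ continuous_const
  refine continuous_finsetProd _ fun i _ => ?_
  exact (continuous_apply_apply (I i) (J i)).comp ga.cont

/-- The stabiliser of the class of a rational tensor. -/
def St (D : Datum F N E) (ga : Gal D Γ) (m : ℕ) (t : Tn N m ℚ) : Subgroup Γ :=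
  Pool.Agent.helper87.AH.stab (ac D ga m) (ac_act D ga m) (D.cls D.base m t)

/-- The exceptional set. -/
def Exc (D : Datum F N E) (ga : Gal D Γ) (m : ℕ) : Set Γ :=
  ⋃ t ∈ {t | t ∈ D.Hodge D.base m ∧ ¬ IsOpen (St D ga m t : Set Γ)},
    {σ | ac D ga m σ (D.cls D.base m t) ∈ D.cls D.base m '' (D.Hodge D.base m : Set (Tn N m ℚ))}

theorem Hcount (D : Datum F N E) (m : ℕ) :
    (D.cls D.base m '' (D.Hodge D.base m : Set (Tn N m ℚ))).Countable :=
  (Set.to_countable _).image _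

theorem Exc_meagre (D : Datum F N E) (ga : Gal D Γ) (m : ℕ) : IsMeagre (Exc D ga m) := by
  unfold Exc
  have hc : {t : Tn N m ℚ | t ∈ D.Hodge D.base m ∧ ¬ IsOpen (St D ga m t : Set Γ)}.Countable :=
    Set.to_countable _
  refine isMeagre_biUnion hc fun t ht => ?_
  by_contra hcon
  exact ht.2 (Pool.Agent.helper87.AH.stab_open_of_category _ (ac_act D ga m) _
    (ac_cont D ga m _) _ (Hcount D m) hcon)

theorem Exc_null [CompactSpace Γ] [MeasurableSpace Γ] [BorelSpace Γ] (μ : Measure Γ)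
    [μ.IsHaarMeasure] (D : Datum F N E) (ga : Gal D Γ) (m : ℕ) : μ (Exc D ga m) = 0 := by
  unfold Exc
  have hc : {t : Tn N m ℚ | t ∈ D.Hodge D.base m ∧ ¬ IsOpen (St D ga m t : Set Γ)}.Countable :=
    Set.to_countable _
  refine (measure_biUnion_null_iff hc).2 fun t ht => ?_
  by_contra hcon
  exact ht.2 (Pool.Agent.helper87.AH.stab_open_of_measure μ _ (ac_act D ga m) _
    (ac_cont D ga m _) _ (Hcount D m) hcon)

/-- Outside the exceptional set a class which becomes Hodge has an open stabiliser. -/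
theorem open_of_not_exc (D : Datum F N E) (ga : Gal D Γ) (m : ℕ) (σ : Γ) (hσ : σ ∉ Exc D ga m)
    (t : Tn N m ℚ) (ht : t ∈ D.Hodge D.base m) (hb : Bec D (ga.tw σ) m t) :
    IsOpen (St D ga m t : Set Γ) := by
  obtain ⟨s, hs, hcl⟩ := hb
  have hs0 : s ∈ D.Hodge D.base m := by
    intro z
    have := hs z
    rwa [ga.tw_h σ] at this
  have h1 : ac D ga m σ (D.cls D.base m s) = D.cls D.base m t := by
    rw [← hcl]
    unfold ac Datum.cls
    rw [ga.tw_P σ, (eTP N m F _ _).1, Matrix.mulVec_mulVec]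
  have h2 : IsOpen (St D ga m s : Set Γ) := by
    by_contra hcon
    apply hσ
    unfold Exc
    rw [Set.mem_iUnion₂]
    exact ⟨s, ⟨hs0, hcon⟩, by
      have h9 : D.cls D.base m t ∈ D.cls D.base m '' (D.Hodge D.base m : Set (Tn N m ℚ)) :=
        ⟨t, ht, rfl⟩
      rw [← h1] at h9
      exact h9⟩
  have h3 : (St D ga m t : Set Γ) = (fun τ => σ⁻¹ * τ * σ) ⁻¹' (St D ga m s : Set Γ) := by
    ext τ
    simp only [Set.mem_preimage, SetLike.mem_coe]
    show ac D ga m τ (D.cls D.base m t) = D.cls D.base m t ↔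
      ac D ga m (σ⁻¹ * τ * σ) (D.cls D.base m s) = D.cls D.base m s
    have ha := ac_act D ga m
    rw [ha.mul, ha.mul, h1]
    constructor
    · intro h
      rw [h]
      exact ha.inv_apply σ _ _ h1
    · intro h
      have h4 := congrArg (ac D ga m σ) h
      rw [← ha.mul, mul_inv_cancel, ha.one, h1] at h4
      exact h4
  rw [h3]
  refine h2.preimage ?_
  exact (continuous_const.mul continuous_id).mul continuous_const

theorem cls_tw (D : Datum F N E) (ga : Gal D Γ) (m : ℕ) (t : Tn N m ℚ) (σ : Γ) :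
    D.cls (ga.tw σ) m t = ac D ga m σ (D.cls D.base m t) := by
  unfold ac Datum.cls
  rw [ga.tw_P σ, (eTP N m F _ _).1, Matrix.mulVec_mulVec]

theorem hodge_tw (D : Datum F N E) (ga : Gal D Γ) (m : ℕ) (t : Tn N m ℚ) (σ : Γ)
    (ht : t ∈ D.Hodge D.base m) : t ∈ D.Hodge (ga.tw σ) m := by
  intro z
  have := ht z
  rwa [← ga.tw_h σ] at this

/-- The classes in a finite dimensional space with open stabilisers have a common one. -/
theorem open_common (D : Datum F N E) (ga : Gal D Γ) (m : ℕ)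
    (h : ∀ t ∈ D.Hodge D.base m, IsOpen (St D ga m t : Set Γ)) :
    ∃ V : Set Γ, IsOpen V ∧ (1 : Γ) ∈ V ∧ ∀ σ ∈ V, ∀ t ∈ D.Hodge D.base m,
      ac D ga m σ (D.cls D.base m t) = D.cls D.base m t := by
  classical
  obtain ⟨S, hS⟩ : (D.Hodge D.base m).FG := IsNoetherian.noetherian (D.Hodge D.base m)
  refine ⟨⋂ t ∈ S, (St D ga m t : Set Γ), ?_, ?_, ?_⟩
  · refine isOpen_biInter_finset fun t ht => h t ?_
    rw [← hS]
    exact Submodule.subset_span ht
  · simp only [Set.mem_iInter, SetLike.mem_coe]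
    intro t _
    exact one_mem _
  · intro σ hσ t ht
    simp only [Set.mem_iInter, SetLike.mem_coe] at hσ
    rw [← hS] at ht
    have hadd : ∀ x y : Tn N m ℚ, D.cls D.base m (x + y) = D.cls D.base m x + D.cls D.base m y := by
      intro x y
      unfold Datum.cls
      rw [← Matrix.mulVec_add]
      congr 1
      funext I
      simp
    have hsm : ∀ (c : ℚ) (x : Tn N m ℚ), D.cls D.base m (c • x) = (c : F) • D.cls D.base m x := by
      intro c x
      unfold Datum.cls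
      rw [← Matrix.mulVec_smul]
      congr 1
      funext I
      simp
    refine Submodule.span_induction (p := fun t _ =>
      ac D ga m σ (D.cls D.base m t) = D.cls D.base m t) ?_ ?_ ?_ ?_ ht
    · intro x hx
      exact hσ x hx
    · have : D.cls D.base m (0 : Tn N m ℚ) = 0 := by
        have := hsm 0 0
        simpa using this
      simp only [this]
      unfold ac
      rw [Matrix.mulVec_zero]
    · intro x y _ _ hx hy
      simp only [hadd]
      unfold ac at hx hy ⊢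
      rw [Matrix.mulVec_add, hx, hy]
    · intro c x _ hx
      simp only [hsm]
      unfold ac at hx ⊢
      rw [Matrix.mulVec_smul, hx]

theorem galois_of_open [CompactSpace Γ] (l : ℕ) (hl : l.Prime) (hlt : ‖(l : F)‖ < 1)
    (D : Datum F N E) (hc : ∀ e, Continuous (D.h e)) (p : Tn N 4 ℚ) (hp : IsKey D p)
    (ga : Gal D Γ) (h2 : ∀ t ∈ D.Hodge D.base 2, IsOpen (St D ga 2 t : Set Γ))
    (h4 : IsOpen (St D ga 4 p : Set Γ)) :
    ∃ U : Subgroup Γ, IsOpen (U : Set Γ) ∧ ∀ σ ∈ U, ∀ m, ∀ t ∈ HZ D m,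
      tp (ga.R σ) m *ᵥ D.cls D.base m t = D.cls D.base m t ∧
      t ∈ D.Hodge (ga.tw σ) m ∧
      D.cls (ga.tw σ) m t = D.cls D.base m t := by
  classical
  obtain ⟨π, hπ, rfl⟩ := hp
  have hp4 := tHP eTP F N E D hc π hπ
  obtain ⟨V, hVo, hV1, hV⟩ := open_common D ga 2 h2
  -- the subgroup fixing the classes of order 2 and `p`
  let U₀ : Subgroup Γ :=
    { carrier := {σ | (∀ t ∈ D.Hodge D.base 2, ac D ga 2 σ (D.cls D.base 2 t) = D.cls D.base 2 t) ∧
        ac D ga 4 σ (D.cls D.base 4 (tau (D.Q D.base) π)) = D.cls D.base 4 (tau (D.Q D.base) π)}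
      mul_mem' := by
        rintro σ τ ⟨h1, h2⟩ ⟨h3, h4⟩
        refine ⟨fun t ht => ?_, ?_⟩
        · rw [(ac_act D ga 2).mul, h3 t ht, h1 t ht]
        · rw [(ac_act D ga 4).mul, h4, h2]
      one_mem' := ⟨fun t _ => (ac_act D ga 2).one _, (ac_act D ga 4).one _⟩
      inv_mem' := by
        rintro σ ⟨h1, h2⟩
        exact ⟨fun t ht => (ac_act D ga 2).inv_apply σ _ _ (h1 t ht),
          (ac_act D ga 4).inv_apply σ _ _ h2⟩ }
  have hU₀ : IsOpen (U₀ : Set Γ) := by
    refine Subgroup.isOpen_of_mem_nhds (g := 1) U₀ ?_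
    have h5 : V ∩ (St D ga 4 (tau (D.Q D.base) π) : Set Γ) ∈ 𝓝 (1 : Γ) :=
      (hVo.inter h4).mem_nhds ⟨hV1, one_mem _⟩
    refine Filter.mem_of_superset h5 ?_
    rintro σ ⟨hσ1, hσ2⟩
    exact ⟨fun t ht => hV σ hσ1 t ht, hσ2⟩
  have hcomp : CompactSpace U₀ :=
    isCompact_iff_compactSpace.1 (U₀.isClosed_of_isOpen hU₀).isCompact
  let D' : Datum F N (Option U₀) := sub D (fun σ : U₀ => ga.tw σ)
  let ga' : Gal D' U₀ :=
    { R := ga.R.comp U₀.subtype
      cont := ga.cont.comp continuous_subtype_val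
      tw := fun σ => some σ
      tw_h := fun σ => ga.tw_h σ
      tw_P := fun σ => ga.tw_P σ }
  obtain ⟨U', hU'o, hU'⟩ := tM3 eTP F l hl hlt N (Option U₀) D' (fun o => hc _) π hπ
    (fun t ht => sub_AH D _ 2 t ht fun σ => ⟨t, hodge_tw D ga 2 t σ ht, by
      rw [cls_tw]; exact σ.2.1 t ht⟩)
    (sub_AH D _ 4 _ hp4 fun σ => ⟨_, hodge_tw D ga 4 _ σ hp4, by
      rw [cls_tw]; exact σ.2.2⟩) U₀ ga'
  refine ⟨U'.map U₀.subtype, ?_, ?_⟩
  · have h6 : ((U'.map U₀.subtype : Subgroup Γ) : Set Γ) = Subtype.val '' (U' : Set U₀) := by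
      ext x
      simp
    rw [h6]
    exact hU₀.isOpenMap_subtype_val _ hU'o
  · rintro _ ⟨σ, hσ, rfl⟩ m t ht
    exact hU' σ hσ m t ht

theorem zero_one [CompactSpace Γ] (l : ℕ) (hl : l.Prime) (hlt : ‖(l : F)‖ < 1)
    (D : Datum F N E) (hc : ∀ e, Continuous (D.h e)) (p : Tn N 4 ℚ) (hp : IsKey D p)
    (ga : Gal D Γ) : ∃ M : Set Γ, IsMeagre M ∧
      (∀ [MeasurableSpace Γ] [BorelSpace Γ] (μ : Measure Γ) [μ.IsHaarMeasure], μ M = 0) ∧
      ∀ σ, σ ∉ M → GoodAt D p (ga.tw σ) →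
        ∃ U : Subgroup Γ, IsOpen (U : Set Γ) ∧ ∀ τ ∈ U, ∀ m, ∀ t ∈ HZ D m,
          tp (ga.R τ) m *ᵥ D.cls D.base m t = D.cls D.base m t ∧
          t ∈ D.Hodge (ga.tw τ) m ∧
          D.cls (ga.tw τ) m t = D.cls D.base m t := by
  refine ⟨Exc D ga 2 ∪ Exc D ga 4, (Exc_meagre D ga 2).union (Exc_meagre D ga 4), ?_, ?_⟩
  · intro _ _ μ _
    exact measure_union_null (Exc_null μ D ga 2) (Exc_null μ D ga 4)
  · intro σ hσ hg
    have hσ2 : σ ∉ Exc D ga 2 := fun h => hσ (Or.inl h)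
    have hσ4 : σ ∉ Exc D ga 4 := fun h => hσ (Or.inr h)
    have hp4 : p ∈ D.Hodge D.base 4 := by
      obtain ⟨π, hπ, rfl⟩ := hp
      exact tHP eTP F N E D hc π hπ
    exact galois_of_open l hl hlt D hc p hp ga
      (fun t ht => open_of_not_exc D ga 2 σ hσ2 t ht (hg.1 t ht))
      (open_of_not_exc D ga 4 σ hσ4 p hp4 hg.2)

end Galois

end Pool.Agent.X4
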